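import Pool.Agent.TH179.SD.Geo2

/-!
# Project SD, G12: an almost symplectic form tamed by `J`
-/

set_option autoImplicit false

open scoped ContDiff Topology
open Set

noncomputable section

namespace Pool.Agent.TH902.SD
open Pool.Agent.TH179.SD

/-- the alternating 2-form of a bilinear form -/
def alt2 (b : V →L[ℝ] V →L[ℝ] ℝ) : Alt 2 where
  toFun m := b (m 0) (m 1) - b (m 1) (m 0)
  map_update_add' := by
    intro hd m i x y
    fin_cases i <;> simp [Function.update] <;> ring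
  map_update_smul' := by
    intro hd m i c x
    fin_cases i <;> simp [Function.update] <;> ring
  map_eq_zero_of_eq' := by
    intro v i j h hij
    fin_cases i <;> fin_cases j <;> simp at h hij ⊢ <;> simp [h]
  cont := by
    change Continuous fun m : Fin 2 → V => b (m 0) (m 1) - b (m 1) (m 0)
    fun_prop

@[simp] theorem alt2_apply (b : V →L[ℝ] V →L[ℝ] ℝ) (m : Fin 2 → V) :
    alt2 b m = b (m 0) (m 1) - b (m 1) (m 0) := rfl

/-- as a linear map -/
def alt2L : (V →L[ℝ] V →L[ℝ] ℝ) →ₗ[ℝ] Alt 2 where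
  toFun := alt2
  map_add' := by
    intro a b
    ext m
    simp
    ring
  map_smul' := by
    intro r a
    ext m
    simp
    ring

/-- as a continuous linear map -/
def alt2C : (V →L[ℝ] V →L[ℝ] ℝ) →L[ℝ] Alt 2 :=
  LinearMap.toContinuousLinearMap (𝕜 := ℝ) (E := V →L[ℝ] V →L[ℝ] ℝ) (F' := Alt 2) alt2L

theorem alt2_contDiff : ContDiff ℝ ∞ (fun b => alt2 b) :=
  ContinuousLinearMap.contDiff (𝕜 := ℝ) (E := V →L[ℝ] V →L[ℝ] ℝ) (F := Alt 2) alt2C

/-- the standard inner product on `V` -/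
def ip : V →L[ℝ] V →L[ℝ] ℝ :=
  ∑ i : Fin 4, ((innerSL ℝ : ℂ →L[ℝ] ℂ →L[ℝ] ℝ).bilinearComp
    (ContinuousLinearMap.proj (R := ℝ) (φ := fun _ : Fin 4 => ℂ) i)
    (ContinuousLinearMap.proj (R := ℝ) (φ := fun _ : Fin 4 => ℂ) i))

theorem ip_comm (u v : V) : ip u v = ip v u := by
  simp only [ip, sum_apply, ContinuousLinearMap.bilinearComp_apply,
    ContinuousLinearMap.proj_apply, innerSL_apply_apply]
  exact Finset.sum_congr rfl fun i _ => real_inner_comm _ _

theorem ip_pos {u : V} (h : u ≠ 0) : 0 < ip u u := by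
  obtain ⟨i, hi⟩ := Function.ne_iff.mp h
  simp only [ip, sum_apply, ContinuousLinearMap.bilinearComp_apply,
    ContinuousLinearMap.proj_apply, innerSL_apply_apply]
  refine Finset.sum_pos' (fun i _ => real_inner_self_nonneg) ⟨i, Finset.mem_univ _, ?_⟩
  exact real_inner_self_pos.mpr hi

theorem ip_nonneg (u : V) : 0 ≤ ip u u := by
  by_cases h : u = 0
  · simp [h]
  · exact (ip_pos h).le

/-- flip as a continuous linear map -/
def flipC : (V →L[ℝ] V →L[ℝ] ℝ) →L[ℝ] (V →L[ℝ] V →L[ℝ] ℝ) :=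
  LinearMap.toContinuousLinearMap (𝕜 := ℝ) (E := V →L[ℝ] V →L[ℝ] ℝ) (F' := V →L[ℝ] V →L[ℝ] ℝ)
    { toFun := fun b => b.flip, map_add' := fun _ _ => rfl, map_smul' := fun _ _ => rfl }

/-- the bilinear form `(u, v) ↦ ⟨L J u, L v⟩` -/
def bf (L J : V →L[ℝ] V) : V →L[ℝ] V →L[ℝ] ℝ :=
  ((ip.comp (L.comp J)).flip.comp L).flip

theorem bf_apply (L J : V →L[ℝ] V) (u v : V) : bf L J u v = ip (L (J u)) (L v) := rfl

theorem bf_contDiffAt {f g : V → V →L[ℝ] V} {q : V} (hf : ContDiffAt ℝ ∞ f q)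
    (hg : ContDiffAt ℝ ∞ g q) : ContDiffAt ℝ ∞ (fun x => bf (f x) (g x)) q := by
  unfold bf
  have h1 : ContDiffAt ℝ ∞ (fun x => ip.comp ((f x).comp (g x))) q :=
    contDiffAt_const.clm_comp (hf.clm_comp hg)
  have fl : ContDiff ℝ ∞ (fun b : V →L[ℝ] V →L[ℝ] ℝ => b.flip) :=
    ContinuousLinearMap.contDiff (𝕜 := ℝ) (E := V →L[ℝ] V →L[ℝ] ℝ) (F := V →L[ℝ] V →L[ℝ] ℝ) flipC
  exact fl.contDiffAt.comp q ((fl.contDiffAt.comp q h1).clm_comp hf)

/-! ### bump functions -/

variable {M : Type} [TopologicalSpace M]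

theorem exists_radius [CompactSpace M] (D : Model M) :
    ∃ R : ℝ, 0 < R ∧ ∀ x, ∃ d, x ∈ (D.φ d).source ∧ ‖D.φ d x‖ < R := by
  let U : ℕ → Set M := fun n => ⋃ d, ((D.φ d).source ∩ D.φ d ⁻¹' (Metric.ball 0 ((n : ℝ) + 1)))
  have hU : ∀ n, IsOpen (U n) := fun n =>
    isOpen_iUnion fun d => (D.φ d).isOpen_inter_preimage Metric.isOpen_ball
  have hc : (univ : Set M) ⊆ ⋃ n, U n := by
    intro x _
    obtain ⟨d, hd⟩ := D.cover x
    obtain ⟨n, hn⟩ := exists_nat_gt ‖D.φ d x‖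
    refine mem_iUnion.mpr ⟨n, mem_iUnion.mpr ⟨d, hd, ?_⟩⟩
    simp only [mem_preimage, mem_ball_zero_iff]
    linarith
  have hm : Directed (· ⊆ ·) U := by
    refine Monotone.directed_le (f := U) ?_
    intro a b hab
    refine iUnion_mono fun d => inter_subset_inter_right _ (preimage_mono ?_)
    refine Metric.ball_subset_ball ?_
    have : (a : ℝ) ≤ b := Nat.cast_le.mpr hab
    linarith
  obtain ⟨n, hn⟩ := isCompact_univ.elim_directed_cover U hU hc hm
  refine ⟨(n : ℝ) + 1, by positivity, fun x => ?_⟩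
  obtain ⟨d, hd, h⟩ := mem_iUnion.mp (hn (mem_univ x))
  exact ⟨d, hd, by simpa [mem_ball_zero_iff] using h⟩

open Classical in
/-- the bump function with support in the chart `d` -/
def bump (D : Model M) (f : V → ℝ) (d : Idx) (x : M) : ℝ :=
  if x ∈ (D.φ d).source then f (D.φ d x) else 0

theorem bump_eq (D : Model M) (f : V → ℝ) {c d : Idx} {q : V} (h : q ∈ O c d) :
    bump D f d ((D.φ c).symm q) = f (tr c d q) := by
  unfold bump
  rw [if_pos ((D.overlap c d q).mpr h), D.trans c d q h]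

theorem symm_cont (D : Model M) (c : Idx) : Continuous (D.φ c).symm := by
  have h := (D.φ c).continuousOn_symm
  rw [D.target c] at h
  exact continuousOn_univ.mp h

theorem bump_near [T2Space M] (D : Model M) (f : V → ℝ) {R : ℝ}
    (hf : ∀ v : V, R < ‖v‖ → f v = 0) {c d : Idx} {q : V} (h : q ∉ O c d) :
    ∀ᶠ q' in 𝓝 q, bump D f d ((D.φ c).symm q') = 0 := by
  have hK : IsCompact ((D.φ d).symm '' Metric.closedBall 0 R) :=
    (isCompact_closedBall (0 : V) R).image (symm_cont D d)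
  have hKs : (D.φ d).symm '' Metric.closedBall 0 R ⊆ (D.φ d).source := by
    rintro _ ⟨v, -, rfl⟩
    exact (D.φ d).map_target (by rw [D.target]; trivial)
  have hq : (D.φ c).symm q ∈ ((D.φ d).symm '' Metric.closedBall 0 R)ᶜ := fun hx =>
    h ((D.overlap c d q).mp (hKs hx))
  have := (symm_cont D c).continuousAt.eventually (hK.isClosed.isOpen_compl.mem_nhds hq)
  refine this.mono fun q' hq' => ?_
  unfold bump
  split_ifs with hs
  · refine hf _ ?_
    by_contra hle
    refine hq' ⟨D.φ d ((D.φ c).symm q'), ?_, (D.φ d).left_inv hs⟩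
    simpa [mem_closedBall_zero_iff] using not_lt.mp hle
  · rfl

/-- the cocycle condition -/
theorem tr_comp (D : Model M) {c c' d : Idx} {q : V} (h : q ∈ O c c') (h' : q ∈ O c d) :
    tr c c' q ∈ O c' d ∧ tr c' d (tr c c' q) = tr c d q := by
  have e1 : (D.φ c').symm (tr c c' q) = (D.φ c).symm q := by
    rw [← D.trans c c' q h, (D.φ c').left_inv ((D.overlap c c' q).mpr h)]
  have h1 : tr c c' q ∈ O c' d := by
    rw [← D.overlap c' d, e1]
    exact (D.overlap c d q).mpr h'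
  refine ⟨h1, ?_⟩
  rw [← D.trans c' d _ h1, e1, D.trans c d q h']

theorem symm_tr (D : Model M) {c c' : Idx} {q : V} (h : q ∈ O c c') :
    (D.φ c').symm (tr c c' q) = (D.φ c).symm q := by
  rw [← D.trans c c' q h, (D.φ c').left_inv ((D.overlap c c' q).mpr h)]

theorem tr_diffAt (hS : TaskSmooth) {c d : Idx} {q : V} (h : q ∈ O c d) :
    ContDiffAt ℝ ∞ (tr c d) q :=
  (hS c d).2.2.1.contDiffAt ((hS c d).1.mem_nhds h)

theorem fderiv_tr_comp (hS : TaskSmooth) (D : Model M) {c c' d : Idx} {q : V} (h : q ∈ O c c')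
    (h' : q ∈ O c d) :
    fderiv ℝ (tr c d) q = (fderiv ℝ (tr c' d) (tr c c' q)).comp (fderiv ℝ (tr c c') q) := by
  have he : tr c d =ᶠ[𝓝 q] tr c' d ∘ tr c c' := by
    filter_upwards [(hS c c').1.mem_nhds h, (hS c d).1.mem_nhds h'] with y hy hy'
    exact (tr_comp D hy hy').2.symm
  rw [he.fderiv_eq]
  exact fderiv_comp q ((tr_diffAt hS (tr_comp D h h').1).differentiableAt (by simp))
    ((tr_diffAt hS h).differentiableAt (by simp))

/-- the form -/
def sg (D : Model M) (f : V → ℝ) (J : Idx → V → V →L[ℝ] V) (c : Idx) (q : V) : Alt 2 :=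
  ∑ d, bump D f d ((D.φ c).symm q) • alt2 (bf (fderiv ℝ (tr c d) q) (J c q))

theorem sg_smooth [T2Space M] (hS : TaskSmooth) (D : Model M) {f : V → ℝ} (hf : ContDiff ℝ ∞ f)
    {R : ℝ} (hR : ∀ v : V, R < ‖v‖ → f v = 0) {J : Idx → V → V →L[ℝ] V} (hJ : IsJ J) (c : Idx) :
    ContDiff ℝ ∞ (sg D f J c) := by
  unfold sg
  refine ContDiff.sum fun d _ => contDiff_iff_contDiffAt.mpr fun q => ?_
  by_cases h : q ∈ O c d
  · have h1 : ContDiffAt ℝ ∞ (fun q => bump D f d ((D.φ c).symm q)) q := by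
      have : (fun q => bump D f d ((D.φ c).symm q)) =ᶠ[𝓝 q] fun q => f (tr c d q) := by
        filter_upwards [(hS c d).1.mem_nhds h] with y hy using bump_eq D f hy
      refine ContDiffAt.congr_of_eventuallyEq ?_ this
      exact hf.contDiffAt.comp q (tr_diffAt hS h)
    have h2 : ContDiffAt ℝ ∞ (fun q => fderiv ℝ (tr c d) q) q :=
      (tr_diffAt hS h).fderiv_right (by simp)
    exact h1.smul (alt2_contDiff.contDiffAt.comp q (bf_contDiffAt h2 (hJ.smooth c).contDiffAt))
  · have : (fun q => bump D f d ((D.φ c).symm q) • alt2 (bf (fderiv ℝ (tr c d) q) (J c q)))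
        =ᶠ[𝓝 q] fun _ => 0 := by
      filter_upwards [bump_near D f hR h] with y hy
      rw [hy, zero_smul]
    exact ContDiffAt.congr_of_eventuallyEq contDiffAt_const this

theorem bump_zero (D : Model M) (f : V → ℝ) {c d : Idx} {q : V} (h : q ∉ O c d) :
    bump D f d ((D.φ c).symm q) = 0 := by
  unfold bump
  rw [if_neg (fun hx => h ((D.overlap c d q).mp hx))]

theorem sg_compat (hS : TaskSmooth) (D : Model M) (f : V → ℝ)
    {J : Idx → V → V →L[ℝ] V} (hJ : IsJ J) (c c' : Idx) (q : V) (h : q ∈ O c c') :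
    sg D f J c q = (sg D f J c' (tr c c' q)).compContinuousLinearMap (fderiv ℝ (tr c c') q) := by
  ext m
  simp only [sg, ContinuousAlternatingMap.sum_apply, ContinuousAlternatingMap.smul_apply,
    ContinuousAlternatingMap.compContinuousLinearMap_apply, symm_tr D h]
  refine Finset.sum_congr rfl fun d _ => ?_
  by_cases h' : q ∈ O c d
  · congr 1
    have hL := fderiv_tr_comp hS D h h'
    have hJ' := hJ.compat c c' q h
    have hJ2 : ∀ u, fderiv ℝ (tr c c') q (J c q u) = J c' (tr c c' q) (fderiv ℝ (tr c c') q u) :=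
      fun u => DFunLike.congr_fun hJ' u
    simp only [alt2_apply, bf_apply, hL, ContinuousLinearMap.comp_apply, hJ2, Function.comp_apply]
  · rw [bump_zero D f h']
    simp

theorem sg_pos (hS : TaskSmooth) (D : Model M) {f : V → ℝ} (hf0 : ∀ v, 0 ≤ f v) {R : ℝ}
    (hfR : ∀ v : V, ‖v‖ < R → 0 < f v)
    (hR : ∀ x, ∃ d, x ∈ (D.φ d).source ∧ ‖D.φ d x‖ < R)
    {J : Idx → V → V →L[ℝ] V} (hJ : IsJ J) (c : Idx) (q u : V) (hu : u ≠ 0) :
    0 < sg D f J c q ![u, J c q u] := by
  have hsq : J c q (J c q u) = -u := by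
    have := DFunLike.congr_fun (hJ.sq c q) u
    simpa using this
  have key : ∀ d, alt2 (bf (fderiv ℝ (tr c d) q) (J c q)) ![u, J c q u] =
      ip (fderiv ℝ (tr c d) q (J c q u)) (fderiv ℝ (tr c d) q (J c q u)) +
      ip (fderiv ℝ (tr c d) q u) (fderiv ℝ (tr c d) q u) := by
    intro d
    simp only [alt2_apply, bf_apply, Matrix.cons_val_zero, Matrix.cons_val_one, hsq, map_neg,
      neg_apply, sub_neg_eq_add]
  simp only [sg, ContinuousAlternatingMap.sum_apply, ContinuousAlternatingMap.smul_apply, key,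
    smul_eq_mul]
  have hb : ∀ d, 0 ≤ bump D f d ((D.φ c).symm q) := by
    intro d
    unfold bump
    split_ifs
    · exact hf0 _
    · exact le_rfl
  refine Finset.sum_pos' (fun d _ => mul_nonneg (hb d) (add_nonneg (ip_nonneg _) (ip_nonneg _))) ?_
  obtain ⟨d, hd, hd'⟩ := hR ((D.φ c).symm q)
  refine ⟨d, Finset.mem_univ _, mul_pos ?_ ?_⟩
  · unfold bump
    rw [if_pos hd]
    exact hfR _ hd'
  · refine add_pos_of_nonneg_of_pos (ip_nonneg _) (ip_pos ?_)
    have hq := (D.overlap c d q).mp hd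
    have hdet := (hS c d).2.2.2.2 q hq
    intro h0
    refine hu ?_
    have hne : (fderiv ℝ (tr c d) q).det ≠ 0 := hdet.ne'
    have : Function.Injective (fderiv ℝ (tr c d) q) := by
      exact ((fderiv ℝ (tr c d) q).toContinuousLinearEquivOfDetNeZero hne).injective
    exact this (by rw [h0, map_zero])

theorem taskSigma : TaskSigma := by
  intro M _ _ _ D hP hS J hJ
  obtain ⟨R, hR0, hR⟩ := exists_radius D
  let f : ContDiffBump (0 : V) := ⟨R, R + 1, hR0, by linarith⟩
  have hf : ContDiff ℝ ∞ (f : V → ℝ) := f.contDiff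
  have hf0 : ∀ v, 0 ≤ f v := fun v => f.nonneg
  have hfR : ∀ v : V, ‖v‖ < R → 0 < f v := by
    intro v hv
    have : f v = 1 := f.one_of_mem_closedBall (by simpa [f] using hv.le)
    rw [this]
    exact one_pos
  have hfz : ∀ v : V, R + 1 < ‖v‖ → f v = 0 := by
    intro v hv
    exact f.zero_of_le_dist (by simpa [f] using hv.le)
  have hpos := sg_pos hS D hf0 hfR hR hJ
  refine ⟨sg D f J, ⟨sg_smooth hS D hf hfz hJ, sg_compat hS D f hJ⟩, fun c q => ?_, hpos⟩
  rw [hP.nondeg]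
  intro u hu
  by_contra hne
  exact (hpos c q u hne).ne' (hu _)

end Pool.Agent.TH902.SD
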